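import Pool.Agent.Helper95.PM.Stmts
import Pool.Agent.Helper6.PW.BIN

/-!
# Row BINM (after helper6's row BIN)
-/

set_option autoImplicit false

namespace Pool.Agent.Helper95.PW

open MeasureTheory Filter

theorem binm_pot_nonneg {M : ℕ} (X : Fin M → R3) (Z : Fin M → ℝ) (hZ : ∀ j, 0 ≤ Z j) (y : R3) :
    0 ≤ pot X Z y :=
  Finset.sum_nonneg fun j _ => div_nonneg (hZ j) (bin_nr _)

theorem binm_ind (S : Set R3) (y : R3) : 0 ≤ ind S y := by
  unfold ind
  exact Set.indicator_nonneg (fun _ _ => zero_le_one) y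

/-- splitting of the attraction into the nuclei -/
theorem binm_split (hINT : ST_INTM) (n M : ℕ) (X : Fin M → R3) (Z : Fin M → ℝ) (v w : Cf n → ℝ)
    (v1 : ContDiff ℝ (⊤ : ℕ∞) v) (v2 : HasCompactSupport v) (w1 : ContDiff ℝ (⊤ : ℕ∞) w)
    (w2 : HasCompactSupport w) :
    ∫ x : Cf n, (∑ k, pot X Z (x k)) * (v x * w x) =
      ∑ j, Z j * ∫ x : Cf n, (∑ k, 1 / nr (x k - X j)) * (v x * w x) := by
  have hi : ∀ j, Integrable fun x : Cf n => (∑ k, 1 / nr (x k - X j)) * (v x * w x) := by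
    intro j
    have h := (hINT n 1 (fun _ => X j) (fun _ => 1) v w v1 v2 w1 w2).1
    have e : (fun x : Cf n => (∑ k, pot (fun _ : Fin 1 => X j) (fun _ => 1) (x k)) *
        (v x * w x)) = fun x => (∑ k, 1 / nr (x k - X j)) * (v x * w x) := by
      funext x
      simp [pot]
    rwa [e] at h
  have e : (fun x : Cf n => (∑ k, pot X Z (x k)) * (v x * w x)) =
      fun x => ∑ j, Z j * ((∑ k, 1 / nr (x k - X j)) * (v x * w x)) := by
    funext x
    have : ∑ k, pot X Z (x k) = ∑ j, Z j * ∑ k, 1 / nr (x k - X j) := by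
      unfold pot
      rw [Finset.sum_comm]
      refine Finset.sum_congr rfl fun j _ => ?_
      rw [Finset.mul_sum]
      refine Finset.sum_congr rfl fun k _ => ?_
      ring
    rw [this, Finset.sum_mul]
    refine Finset.sum_congr rfl fun j _ => ?_
    ring
  rw [e, integral_finsetSum _ fun j _ => (hi j).const_mul (Z j)]
  refine Finset.sum_congr rfl fun j _ => ?_
  rw [integral_const_mul]

theorem binm_one (hINT : ST_INTM) (n M : ℕ) (X : Fin M → R3) (Z : Fin M → ℝ) (u : Wf n)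
    (hu : Sm u) :
    one (pot X Z) u = ∑ j, Z j * one (fun y => 1 / nr (y - X j)) u := by
  have h : ∀ s, ∫ x : Cf n, (∑ k, pot X Z (x k)) * u s x ^ 2 =
      ∑ j, Z j * ∫ x : Cf n, (∑ k, 1 / nr (x k - X j)) * u s x ^ 2 := by
    intro s
    have := binm_split hINT n M X Z (u s) (u s) (hu s).1 (hu s).2 (hu s).1 (hu s).2
    simp only [← pow_two] at this
    exact this
  unfold one
  rw [Finset.sum_congr rfl fun s _ => h s, Finset.sum_comm]
  refine Finset.sum_congr rfl fun j _ => ?_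
  rw [Finset.mul_sum]

theorem binm_id (hPAN : ST_PAN) (hSTB : ST_STB) (hINT : ST_INTM) (n M : ℕ) (X : Fin M → R3)
    (Z : Fin M → ℝ) (E : ℝ) (g : R3 → ℝ) (hg : ContDiff ℝ (⊤ : ℕ∞) g) (u : Wf n) (hu : Sm u) :
    QM X Z (fun s => Pg g (u s)) - E * sq (fun s => Pg g (u s)) +
      (∑ s, ∫ x, Pg g (Pg g (u s)) x * (hmM X Z (u s) x - E * u s x)) =
    (kin (fun s => Pg g (u s)) -
      (∑ s, ∫ x, Pg g (Pg g (u s)) x * ∑ k, ∑ i, dv k i (dv k i (u s)) x)) +
    (pair (fun s => Pg g (u s)) + (∑ s, ∫ x, rep x * (Pg g (Pg g (u s)) x * u s x))) -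
    ∑ j, Z j * (one (fun y => 1 / nr (y - X j)) (fun s => Pg g (u s)) +
      (∑ s, ∫ x, (∑ k, 1 / nr (x k - X j)) * (Pg g (Pg g (u s)) x * u s x))) := by
  have h1 : Sm (fun s => Pg g (u s)) := (hSTB n g u hg hu).2.1
  have h2 : Sm (fun s => Pg g (Pg g (u s))) := (hSTB n g _ hg h1).2.1
  have key : ∀ s, ∫ x, Pg g (Pg g (u s)) x * (hmM X Z (u s) x - E * u s x) =
      -(∫ x, Pg g (Pg g (u s)) x * ∑ k, ∑ i, dv k i (dv k i (u s)) x) +
      (∫ x, rep x * (Pg g (Pg g (u s)) x * u s x)) -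
      (∫ x : Cf n, (∑ k, pot X Z (x k)) * (Pg g (Pg g (u s)) x * u s x)) +
      E * ∫ x, Pg g (u s) x ^ 2 := by
    intro s
    obtain ⟨w1, w2⟩ := h2 s
    obtain ⟨u1, u2⟩ := hu s
    obtain ⟨i1, i2, -, -⟩ := hINT n M X Z (Pg g (Pg g (u s))) (u s) w1 w2 u1 u2
    have cw : Continuous (Pg g (Pg g (u s))) := w1.continuous
    have cD : Continuous fun x : Cf n => ∑ k, ∑ i, dv k i (dv k i (u s)) x := by
      refine continuous_finsetSum _ fun k _ => continuous_finsetSum _ fun i _ => ?_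
      exact (bin_dv k i (bin_dv k i u1)).continuous
    have iD : Integrable fun x : Cf n =>
        Pg g (Pg g (u s)) x * ∑ k, ∑ i, dv k i (dv k i (u s)) x :=
      (cw.mul cD).integrable_of_hasCompactSupport (HasCompactSupport.mul_right w2)
    have iu : Integrable fun x : Cf n => Pg g (Pg g (u s)) x * u s x :=
      (cw.mul u1.continuous).integrable_of_hasCompactSupport (HasCompactSupport.mul_right w2)
    have e1 : (fun x : Cf n => Pg g (Pg g (u s)) x * (hmM X Z (u s) x - E * u s x)) =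
        fun x => -(Pg g (Pg g (u s)) x * ∑ k, ∑ i, dv k i (dv k i (u s)) x) +
          rep x * (Pg g (Pg g (u s)) x * u s x) -
          (∑ k, pot X Z (x k)) * (Pg g (Pg g (u s)) x * u s x) -
          E * (Pg g (Pg g (u s)) x * u s x) := by
      funext x
      unfold hmM
      ring
    have e2 : ∫ x, Pg g (Pg g (u s)) x * u s x = -∫ x, Pg g (u s) x ^ 2 := by
      rw [hPAN n g (Pg g (u s)) (u s) hg (h1 s).1 (h1 s).2 u1]
      congr 1
      refine integral_congr_ae (Eventually.of_forall fun x => ?_)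
      simp only
      ring
    rw [e1, integral_sub, integral_sub, integral_add, integral_neg, integral_const_mul, e2]
    · ring
    · exact iD.neg
    · exact i2
    · exact iD.neg.add i2
    · exact i1
    · exact (iD.neg.add i2).sub i1
    · exact iu.const_mul E
  have hP : ∑ s, ∫ x : Cf n, (∑ k, pot X Z (x k)) * (Pg g (Pg g (u s)) x * u s x) =
      ∑ j, Z j * ∑ s, ∫ x : Cf n, (∑ k, 1 / nr (x k - X j)) * (Pg g (Pg g (u s)) x * u s x) := by
    rw [Finset.sum_congr rfl fun s _ => binm_split hINT n M X Z (Pg g (Pg g (u s))) (u s)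
      (h2 s).1 (h2 s).2 (hu s).1 (hu s).2, Finset.sum_comm]
    refine Finset.sum_congr rfl fun j _ => ?_
    rw [Finset.mul_sum]
  have hO := binm_one hINT n M X Z (fun s => Pg g (u s)) h1
  rw [Finset.sum_congr rfl fun s _ => key s]
  simp only [Finset.sum_add_distrib, Finset.sum_sub_distrib, Finset.sum_neg_distrib,
    ← Finset.mul_sum]
  rw [hP]
  unfold QM
  rw [hO]
  have e3 : sq (fun s => Pg g (u s)) = ∑ s, ∫ x, Pg g (u s) x ^ 2 := rfl
  rw [e3]
  simp only [mul_add, Finset.sum_add_distrib]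
  ring

theorem st_BINM (_ : ST_QHM) (hPAN : ST_PAN) (hSTB : ST_STB) (hKIN : ST_KINM) (hPOE : ST_POE)
    (hPIN : ST_PINM) (hINT : ST_INTM) : ST_BINM := by
  obtain ⟨C1, hC1, H1⟩ := hKIN
  obtain ⟨C2, hC2, H2⟩ := hPOE
  obtain ⟨C3, hC3, H3⟩ := hPIN
  refine ⟨3 * C1 + 3 * C2 + C3, by positivity, ?_⟩
  intro n M X Z E g K R B S u hZ hg hR hS g2 g1 hu hB
  have id : ∀ m, QM X Z (fun s => Pg (g m) (u s)) - E * sq (fun s => Pg (g m) (u s)) =
      -(∑ s, ∫ x, Pg (g m) (Pg (g m) (u s)) x * (hmM X Z (u s) x - E * u s x)) +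
      ((kin (fun s => Pg (g m) (u s)) -
        (∑ s, ∫ x, Pg (g m) (Pg (g m) (u s)) x * ∑ k, ∑ i, dv k i (dv k i (u s)) x)) +
      (pair (fun s => Pg (g m) (u s)) +
        (∑ s, ∫ x, rep x * (Pg (g m) (Pg (g m) (u s)) x * u s x))) -
      ∑ j, Z j * (one (fun y => 1 / nr (y - X j)) (fun s => Pg (g m) (u s)) +
        (∑ s, ∫ x, (∑ k, 1 / nr (x k - X j)) * (Pg (g m) (Pg (g m) (u s)) x * u s x)))) := by
    intro m
    have := binm_id hPAN hSTB hINT n M X Z E (g m) (hg m).sm u hu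
    linarith
  have a1 : ∀ m, kin (fun s => Pg (g m) (u s)) -
      (∑ s, ∫ x, Pg (g m) (Pg (g m) (u s)) x * ∑ k, ∑ i, dv k i (dv k i (u s)) x) ≤
      C1 * K ^ 2 * (kin u / R ^ 2 + one (ind S) u / R ^ 4) :=
    fun m => H1 n (g m) K R S u (hg m) hR hS (g2 m) hu
  have a2 : ∀ m, pair (fun s => Pg (g m) (u s)) +
      (∑ s, ∫ x, rep x * (Pg (g m) (Pg (g m) (u s)) x * u s x)) ≤
      C2 * K ^ 2 / R ^ 2 * pair u := fun m => H2 n (g m) K R u (hg m) hR hu
  have a3 : ∀ j, -(∑ m, (one (fun y => 1 / nr (y - X j)) (fun s => Pg (g m) (u s)) +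
      (∑ s, ∫ x, (∑ k, 1 / nr (x k - X j)) * (Pg (g m) (Pg (g m) (u s)) x * u s x)))) ≤
      C3 * K ^ 2 / R ^ 2 * one (fun y => 1 / nr (y - X j)) u + B / 2 :=
    fun j => H3 n g K R B (X j) u hg hR (fun m y => g1 m j y) hu (hB j)
  have p1 := bin_kin u
  have p2 := bin_pair u
  have p3 : 0 ≤ one (pot X Z) u := bin_one _ (binm_pot_nonneg X Z hZ) u
  have p4 : 0 ≤ one (ind S) u := bin_one _ (binm_ind _) u
  have hO := binm_one hINT n M X Z u hu
  rw [Finset.sum_congr rfl fun m _ => id m, Finset.sum_add_distrib, Finset.sum_neg_distrib]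
  have h4 : ∑ m : Fin 3, ((kin (fun s => Pg (g m) (u s)) -
        (∑ s, ∫ x, Pg (g m) (Pg (g m) (u s)) x * ∑ k, ∑ i, dv k i (dv k i (u s)) x)) +
      (pair (fun s => Pg (g m) (u s)) +
        (∑ s, ∫ x, rep x * (Pg (g m) (Pg (g m) (u s)) x * u s x))) -
      ∑ j, Z j * (one (fun y => 1 / nr (y - X j)) (fun s => Pg (g m) (u s)) +
        (∑ s, ∫ x, (∑ k, 1 / nr (x k - X j)) * (Pg (g m) (Pg (g m) (u s)) x * u s x)))) ≤
      3 * (C1 * K ^ 2 * (kin u / R ^ 2 + one (ind S) u / R ^ 4)) +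
      3 * (C2 * K ^ 2 / R ^ 2 * pair u) +
      (C3 * K ^ 2 / R ^ 2 * one (pot X Z) u + (∑ j, Z j) * B / 2) := by
    rw [Finset.sum_sub_distrib, Finset.sum_add_distrib]
    have b1 : ∑ m : Fin 3, (kin (fun s => Pg (g m) (u s)) -
        (∑ s, ∫ x, Pg (g m) (Pg (g m) (u s)) x * ∑ k, ∑ i, dv k i (dv k i (u s)) x)) ≤
        3 * (C1 * K ^ 2 * (kin u / R ^ 2 + one (ind S) u / R ^ 4)) := by
      refine (Finset.sum_le_sum fun m _ => a1 m).trans ?_
      simp
    have b2 : ∑ m : Fin 3, (pair (fun s => Pg (g m) (u s)) +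
        (∑ s, ∫ x, rep x * (Pg (g m) (Pg (g m) (u s)) x * u s x))) ≤
        3 * (C2 * K ^ 2 / R ^ 2 * pair u) := by
      refine (Finset.sum_le_sum fun m _ => a2 m).trans ?_
      simp
    have b3 : -(∑ m : Fin 3, ∑ j, Z j *
        (one (fun y => 1 / nr (y - X j)) (fun s => Pg (g m) (u s)) +
        (∑ s, ∫ x, (∑ k, 1 / nr (x k - X j)) * (Pg (g m) (Pg (g m) (u s)) x * u s x)))) ≤
        C3 * K ^ 2 / R ^ 2 * one (pot X Z) u + (∑ j, Z j) * B / 2 := by
      rw [Finset.sum_comm, ← Finset.sum_neg_distrib, hO]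
      have e1 : C3 * K ^ 2 / R ^ 2 * (∑ j, Z j * one (fun y => 1 / nr (y - X j)) u) +
          (∑ j, Z j) * B / 2 =
          ∑ j, Z j * (C3 * K ^ 2 / R ^ 2 * one (fun y => 1 / nr (y - X j)) u + B / 2) := by
        have e2 : (∑ j, Z j) * B / 2 = ∑ j, Z j * (B / 2) := by
          rw [mul_div_assoc, Finset.sum_mul]
        rw [e2, Finset.mul_sum, ← Finset.sum_add_distrib]
        refine Finset.sum_congr rfl fun j _ => ?_
        ring
      rw [e1]
      refine Finset.sum_le_sum fun j _ => ?_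
      have := mul_le_mul_of_nonneg_left (a3 j) (hZ j)
      rw [mul_neg] at this
      rw [← Finset.mul_sum]
      exact this
    linarith
  have h5 : 3 * (C1 * K ^ 2 * (kin u / R ^ 2 + one (ind S) u / R ^ 4)) +
      3 * (C2 * K ^ 2 / R ^ 2 * pair u) +
      (C3 * K ^ 2 / R ^ 2 * one (pot X Z) u + (∑ j, Z j) * B / 2) ≤
      (3 * C1 + 3 * C2 + C3) * K ^ 2 *
        ((kin u + pair u + one (pot X Z) u) / R ^ 2 + one (ind S) u / R ^ 4) +
        (∑ j, Z j) * B / 2 := by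
    have q1 : 0 ≤ K ^ 2 * (kin u / R ^ 2) := by positivity
    have q2 : 0 ≤ K ^ 2 * (pair u / R ^ 2) := by positivity
    have q3 : 0 ≤ K ^ 2 * (one (pot X Z) u / R ^ 2) := by positivity
    have q4 : 0 ≤ K ^ 2 * (one (ind S) u / R ^ 4) := by positivity
    have e : (3 * C1 + 3 * C2 + C3) * K ^ 2 *
        ((kin u + pair u + one (pot X Z) u) / R ^ 2 + one (ind S) u / R ^ 4) +
        (∑ j, Z j) * B / 2 -
        (3 * (C1 * K ^ 2 * (kin u / R ^ 2 + one (ind S) u / R ^ 4)) +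
      3 * (C2 * K ^ 2 / R ^ 2 * pair u) +
      (C3 * K ^ 2 / R ^ 2 * one (pot X Z) u + (∑ j, Z j) * B / 2)) =
        (3 * C2 + C3) * (K ^ 2 * (kin u / R ^ 2)) + (3 * C1 + C3) * (K ^ 2 * (pair u / R ^ 2)) +
        (3 * C1 + 3 * C2) * (K ^ 2 * (one (pot X Z) u / R ^ 2)) +
        (3 * C2 + C3) * (K ^ 2 * (one (ind S) u / R ^ 4)) := by
      ring
    have : 0 ≤ (3 * C2 + C3) * (K ^ 2 * (kin u / R ^ 2)) +
        (3 * C1 + C3) * (K ^ 2 * (pair u / R ^ 2)) +
        (3 * C1 + 3 * C2) * (K ^ 2 * (one (pot X Z) u / R ^ 2)) +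
        (3 * C2 + C3) * (K ^ 2 * (one (ind S) u / R ^ 4)) := by
      positivity
    linarith
  linarith

end Pool.Agent.Helper95.PW
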